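import Mathlib.RingTheory.Smooth.Field
import Mathlib.RingTheory.Etale.Kaehler
import Mathlib.RingTheory.Etale.Field
import Mathlib.RingTheory.AlgebraicIndependent.TranscendenceBasis
import Mathlib.Algebra.MvPolynomial.Derivation
import Mathlib.RingTheory.Algebraic.Integral

/-!
# Derivations of a field of characteristic zero with prescribed values on an
algebraically independent family

`exists_derivation`: for fields `k ≤ K` of characteristic zero, a family `t` of elements of `K`
algebraically independent over `k` and any `w : ι → K`, there is a `k`-derivation `D` of `K`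
with `D (t i) = w i` for all `i`.
-/

namespace Pool.Agent.Helper20.DER

open MvPolynomial TensorProduct

variable {k K : Type*} [Field k] [Field K] [Algebra k K] [CharZero k]

/-- Prescribed values on a transcendence basis. -/
theorem exists_derivation_of_basis {ι : Type*} {b : ι → K} (hb : IsTranscendenceBasis k b)
    (w : ι → K) : ∃ D : Derivation k K K, ∀ i, D (b i) = w i := by
  classical
  let : Algebra (MvPolynomial ι k) K := (aeval b).toRingHom.toAlgebra
  have halg : ∀ p : MvPolynomial ι k, algebraMap (MvPolynomial ι k) K p = aeval b p := fun p => rfl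
  have : IsScalarTower k (MvPolynomial ι k) K := IsScalarTower.of_algebraMap_eq (fun x => by
    rw [halg]; simp)
  have hinj : Function.Injective (algebraMap (MvPolynomial ι k) K) := hb.1
  have : FaithfulSMul (MvPolynomial ι k) K := (faithfulSMul_iff_algebraMap_injective _ _).2 hinj
  let : Algebra (FractionRing (MvPolynomial ι k)) K := FractionRing.liftAlgebra _ _
  have : IsScalarTower (MvPolynomial ι k) (FractionRing (MvPolynomial ι k)) K :=
    FractionRing.isScalarTower_liftAlgebra _ _
  have : Algebra.IsAlgebraic (MvPolynomial ι k) K := by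
    have h := hb.isAlgebraic
    refine Algebra.IsAlgebraic.of_ringHom_of_comp_eq (R := MvPolynomial ι k) (A := K)
      (S := Algebra.adjoin k (Set.range b)) (B := K)
      ((hb.1.aevalEquiv : MvPolynomial ι k ≃ₐ[k] _) : MvPolynomial ι k →+* _)
      (RingHom.id K) hb.1.aevalEquiv.surjective Function.injective_id ?_
    ext x
    · simp [halg]
    · simp [halg]
  have : Algebra.IsAlgebraic (FractionRing (MvPolynomial ι k)) K :=
    (IsFractionRing.comap_isAlgebraic_iff (A := MvPolynomial ι k)
      (K := FractionRing (MvPolynomial ι k)) (C := K)).1 inferInstance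
  have : CharZero (FractionRing (MvPolynomial ι k)) :=
    IsFractionRing.charZero_of_isFractionRing (MvPolynomial ι k)
  have : Algebra.FormallyEtale (FractionRing (MvPolynomial ι k)) K :=
    Algebra.FormallyEtale.of_isSeparable _ _
  have : Algebra.FormallyEtale (MvPolynomial ι k) (FractionRing (MvPolynomial ι k)) :=
    .of_isLocalization (nonZeroDivisors _)
  have : Algebra.FormallyEtale (MvPolynomial ι k) K :=
    .comp _ (FractionRing (MvPolynomial ι k)) _
  let D0 : Derivation k (MvPolynomial ι k) K := MvPolynomial.mkDerivation k w
  have bc := KaehlerDifferential.isBaseChange_of_formallyEtale k (MvPolynomial ι k) K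
  let l : Ω[K⁄k] →ₗ[K] K := bc.lift D0.liftKaehlerDifferential
  refine ⟨l.compDer (KaehlerDifferential.D k K), fun i => ?_⟩
  have h1 : b i = algebraMap (MvPolynomial ι k) K (X i) := by rw [halg]; simp
  have h2 : KaehlerDifferential.D k K (b i) =
      KaehlerDifferential.map k k (MvPolynomial ι k) K (KaehlerDifferential.D k _ (X i)) := by
    rw [KaehlerDifferential.map_D, h1]
  change l (KaehlerDifferential.D k K (b i)) = w i
  rw [h2, bc.lift_eq, Derivation.liftKaehlerDifferential_comp_D]
  simp [D0]

/-- Prescribed values on an algebraically independent family. -/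
theorem exists_derivation {ι : Type*} {t : ι → K} (ht : AlgebraicIndependent k t)
    (w : ι → K) : ∃ D : Derivation k K K, ∀ i, D (t i) = w i := by
  classical
  obtain ⟨T, hT, hbT⟩ := exists_isTranscendenceBasis_superset (R := k) (s := Set.range t)
    ht.coe_range
  have hinj : Function.Injective t := ht.injective
  let w' : T → K := fun x => if h : ∃ i, t i = (x : K) then w h.choose else 0
  obtain ⟨D, hD⟩ := exists_derivation_of_basis hbT w'
  refine ⟨D, fun i => ?_⟩
  have h1 := hD ⟨t i, hT ⟨i, rfl⟩⟩
  have hex : ∃ j, t j = t i := ⟨i, rfl⟩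
  have h2 : w' ⟨t i, hT ⟨i, rfl⟩⟩ = w i := by
    have h3 : hex.choose = i := hinj hex.choose_spec
    simp only [w']
    rw [dif_pos hex, h3]
  rw [h2] at h1
  exact h1

/-- A field extension of characteristic zero is formally smooth. -/
theorem formallySmooth_of_charZero (M F : Type*) [Field M] [Field F] [Algebra M F] [CharZero M] :
    Algebra.FormallySmooth M F := by
  obtain ⟨ι, b, hb⟩ := exists_isTranscendenceBasis' (R := M) (A := F)
  have : Algebra.IsAlgebraic (IntermediateField.adjoin M (Set.range b)) F := hb.isAlgebraic_field
  exact Algebra.FormallySmooth.of_algebraicIndependent_of_isSeparable hb.1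

/-- Every derivation of a field of characteristic zero extends to any extension field. -/
theorem extend_derivation {k0 M F : Type*} [Field k0] [Field M] [Field F] [Algebra k0 M]
    [Algebra k0 F] [Algebra M F] [IsScalarTower k0 M F] [CharZero k0] (D0 : Derivation k0 M M) :
    ∃ D : Derivation k0 F F, ∀ m : M, D (algebraMap M F m) = algebraMap M F (D0 m) := by
  classical
  have : CharZero M := charZero_of_injective_algebraMap (algebraMap k0 M).injective
  have hsm : Algebra.FormallySmooth M F := formallySmooth_of_charZero M F
  have hinj : Function.Injective (KaehlerDifferential.mapBaseChange k0 M F) := by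
    rw [injective_iff_map_eq_zero]
    intro x hx
    obtain ⟨y, rfl⟩ := (Algebra.H1Cotangent.exact_δ_mapBaseChange k0 M F x).mp hx
    rw [Subsingleton.elim y 0, map_zero]
  obtain ⟨g, hg⟩ := (KaehlerDifferential.mapBaseChange k0 M F).exists_leftInverse_of_injective
    (LinearMap.ker_eq_bot.2 hinj)
  let l0 : Ω[M⁄k0] →ₗ[M] F := (Algebra.linearMap M F) ∘ₗ D0.liftKaehlerDifferential
  let l : Ω[F⁄k0] →ₗ[F] F := (l0.liftBaseChange F) ∘ₗ g
  refine ⟨l.compDer (KaehlerDifferential.D k0 F), fun m => ?_⟩
  have h2 : KaehlerDifferential.D k0 F (algebraMap M F m) =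
      KaehlerDifferential.mapBaseChange k0 M F (1 ⊗ₜ KaehlerDifferential.D k0 M m) := by
    rw [KaehlerDifferential.mapBaseChange_tmul, one_smul, KaehlerDifferential.map_D]
  have h3 := LinearMap.congr_fun hg (1 ⊗ₜ[M] KaehlerDifferential.D k0 M m)
  change (l0.liftBaseChange F) (g (KaehlerDifferential.D k0 F (algebraMap M F m))) = _
  rw [h2]
  change g (KaehlerDifferential.mapBaseChange k0 M F _) = _ at h3
  rw [h3]
  simp [l0]

end Pool.Agent.Helper20.DER
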