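import Pool.Agent.Helper20.DER.Cone
import Pool.Agent.Helper6.TRI.GDefs
import Mathlib.RingTheory.TensorProduct.MvPolynomial

/-!
# Points of a geometrically integral surface over extension fields
-/

namespace Pool.Agent.Helper20.DER

open AlgebraicIndependent TensorProduct Pool.Agent.TRI

section coord

variable {k L σ : Type*} [Field k] [Field L] [Algebra k L]

/-- Coefficientwise application of a linear functional `L → k`. -/
theorem exists_coeff_map (lam : L →ₗ[k] k) :
    ∃ Λ : MvPolynomial σ L →ₗ[k] MvPolynomial σ k,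
      (∀ (a : L) (P : MvPolynomial σ k),
        Λ (MvPolynomial.C a * MvPolynomial.map (algebraMap k L) P) = lam a • P) ∧
      ∀ (Q : MvPolynomial σ L) (g : MvPolynomial σ k),
        Λ (Q * MvPolynomial.map (algebraMap k L) g) = Λ Q * g := by
  let e : L ⊗[k] MvPolynomial σ k ≃ₐ[L] MvPolynomial σ L := MvPolynomial.algebraTensorAlgEquiv k L
  have he : ∀ (a : L) (P : MvPolynomial σ k),
      e (a ⊗ₜ P) = MvPolynomial.C a * MvPolynomial.map (algebraMap k L) P := by
    intro a P
    rw [MvPolynomial.algebraTensorAlgEquiv_tmul, MvPolynomial.smul_eq_C_mul]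
  let Λ0 : L ⊗[k] MvPolynomial σ k →ₗ[k] MvPolynomial σ k :=
    (TensorProduct.lid k (MvPolynomial σ k)).toLinearMap ∘ₗ (LinearMap.rTensor _ lam)
  let Λ : MvPolynomial σ L →ₗ[k] MvPolynomial σ k :=
    Λ0 ∘ₗ (e.symm.toLinearMap.restrictScalars k)
  have h1 : ∀ (a : L) (P : MvPolynomial σ k),
        Λ (MvPolynomial.C a * MvPolynomial.map (algebraMap k L) P) = lam a • P := by
    intro a P
    rw [← he]
    change Λ0 (e.symm (e (a ⊗ₜ P))) = _
    rw [AlgEquiv.symm_apply_apply]
    simp [Λ0]
  refine ⟨Λ, h1, fun Q g => ?_⟩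
  obtain ⟨w, rfl⟩ := e.surjective Q
  induction w using TensorProduct.induction_on with
  | zero => simp
  | add x y hx hy => rw [map_add, add_mul, map_add, map_add, add_mul, hx, hy]
  | tmul a P =>
    rw [he, mul_assoc, ← map_mul, h1, h1, smul_mul_assoc]

/-- Coordinates of an element of the ideal generated by `I` over an extension field. -/
theorem coord_mem {I : Ideal (MvPolynomial σ k)} {ι : Type*} [Fintype ι] [DecidableEq ι]
    (v : ι → L) (hv : LinearIndependent k v) (P : ι → MvPolynomial σ k)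
    (h : ∑ j, MvPolynomial.C (v j) * MvPolynomial.map (algebraMap k L) (P j) ∈
      I.map (MvPolynomial.map (algebraMap k L))) (j : ι) : P j ∈ I := by
  obtain ⟨g, hg⟩ := (Finsupp.linearCombination k v).exists_leftInverse_of_injective
    (LinearMap.ker_eq_bot.2 hv)
  let lam : L →ₗ[k] k := (Finsupp.lapply j) ∘ₗ g
  have hlam : ∀ i, lam (v i) = if i = j then 1 else 0 := by
    intro i
    have h1 := LinearMap.congr_fun hg (Finsupp.single i 1)
    simp only [LinearMap.comp_apply, Finsupp.linearCombination_single, one_smul,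
      LinearMap.id_apply] at h1
    change (g (v i)) j = _
    rw [h1, Finsupp.single_apply]
  obtain ⟨Λ, h1, h2⟩ := exists_coeff_map (σ := σ) lam
  have h3 : ∀ w ∈ I.map (MvPolynomial.map (algebraMap k L)), ∀ a, Λ (a * w) ∈ I := by
    intro w hw
    refine Submodule.span_induction ?_ ?_ ?_ ?_ hw
    · rintro _ ⟨g, hgI, rfl⟩ a
      rw [h2]
      exact I.mul_mem_left _ hgI
    · intro a
      rw [mul_zero, map_zero]; exact I.zero_mem
    · intro x y _ _ hx hy a
      rw [mul_add, map_add]; exact I.add_mem (hx a) (hy a)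
    · intro b x _ hx a
      rw [smul_eq_mul, ← mul_assoc]
      exact hx _
  have h5 := h3 _ h 1
  rw [one_mul] at h5
  rw [map_sum] at h5
  simp only [h1, hlam, ite_smul, one_smul, zero_smul, Finset.sum_ite_eq', Finset.mem_univ,
    if_true] at h5
  exact h5

end coord

section surf

universe u

variable {k0 M : Type u} [Field k0] [Field M] [Algebra k0 M] {N : ℕ}
  {I : Ideal (MvPolynomial (Fin (N + 1)) k0)}

/-- The equations of the surface hold on the cone over a point of it. -/
theorem cone_of_onX (hX : Surf I) {z : Fin (N + 1) → M} (hz : OnX I z)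
    (F : MvPolynomial (Fin (N + 1)) k0) (hF : F ∈ I) :
    MvPolynomial.aeval (fun i => (Polynomial.X : Polynomial M) * Polynomial.C (z i)) F = 0 := by
  rw [aeval_cone_eq_zero_iff]
  exact fun d => hz _ (hX.hom F hF d)

/-- The homomorphism from the ring of the surface given by the cone over a point. -/
theorem exists_coneHom (hX : Surf I) {z : Fin (N + 1) → M} (hz : OnX I z) :
    ∃ f : (MvPolynomial (Fin (N + 1)) k0 ⧸ I) →ₐ[k0] Polynomial M,
      ∀ F, f (Ideal.Quotient.mk I F) =
        MvPolynomial.aeval (fun i => (Polynomial.X : Polynomial M) * Polynomial.C (z i)) F :=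
  ⟨Ideal.Quotient.liftₐ I _ (fun F hF => cone_of_onX hX hz F hF), fun _ => rfl⟩

theorem mk_eq_of_encard {α : Type*} {S : Set α} {n : ℕ} (h : S.encard = n) :
    Cardinal.mk S = n := by
  have hfin : S.Finite := Set.finite_of_encard_eq_coe h
  have h1 : S.ncard = n := by rw [Set.ncard_def, h]; rfl
  rw [← h1, Set.cast_ncard hfin]

theorem eRk_le_two (hX : Surf I) {z : Fin (N + 1) → M} {c : Fin (N + 1)} (hc : z c = 1)
    (hz : OnX I z) : (matroid k0 M).eRk (Set.range z) ≤ 2 := by
  by_contra hcon
  have hcon' : (3 : ℕ) ≤ (matroid k0 M).eRk (Set.range z) := by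
    push Not at hcon
    exact Order.add_one_le_of_lt hcon
  have h1 := le_eRk_cone hc hcon'
  obtain ⟨J, hJS, hJ, hJn⟩ := Matroid.le_eRk_iff.1 h1
  obtain ⟨f, hf⟩ := exists_coneHom hX hz
  have hfin : J.Finite := Set.finite_of_encard_eq_coe hJn
  have hex : ∀ x : J, ∃ i, f (Ideal.Quotient.mk I (MvPolynomial.X i)) = x := by
    intro x
    obtain ⟨i, hi⟩ := hJS x.2
    exact ⟨i, by rw [hf, MvPolynomial.aeval_X]; exact hi⟩
  choose w hw using hex
  have h2 : AlgebraicIndependent k0 fun x : J => Ideal.Quotient.mk I (MvPolynomial.X (w x)) := by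
    refine AlgebraicIndependent.of_comp f ?_
    have h3 : f ∘ (fun x : J => Ideal.Quotient.mk I (MvPolynomial.X (w x))) = Subtype.val := by
      funext x
      exact hw x
    rw [h3]
    exact matroid_indep_iff.1 hJ
  have h4 := h2.cardinalMk_le_trdeg
  rw [hX.tr, mk_eq_of_encard hJn] at h4
  exact absurd h4 (by norm_num)

/-- A point of the surface of rank two is generic: every form vanishing at it is in the ideal. -/
theorem mem_of_aeval_eq_zero (hX : Surf I) {z : Fin (N + 1) → M} {c : Fin (N + 1)} (hc : z c = 1)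
    (hz : OnX I z) (hr : (2 : ℕ) ≤ (matroid k0 M).eRk (Set.range z)) {d : ℕ}
    {G : MvPolynomial (Fin (N + 1)) k0} (hG : G.IsHomogeneous d)
    (h0 : MvPolynomial.aeval z G = 0) : G ∈ I := by
  have hprime := hX.prime
  have h1 := le_eRk_cone hc hr
  obtain ⟨J, hJS, hJ, hJn⟩ := Matroid.le_eRk_iff.1 h1
  obtain ⟨f, hf⟩ := exists_coneHom hX hz
  have hfin : J.Finite := Set.finite_of_encard_eq_coe hJn
  have hcard : Nat.card J = 3 := by
    rw [Nat.card_coe_set_eq, Set.ncard_def, hJn]; rfl
  have hFi : Finite J := hfin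
  let e : Fin 3 ≃ J := (Finite.equivFinOfCardEq hcard).symm
  have hex : ∀ x : J, ∃ i, f (Ideal.Quotient.mk I (MvPolynomial.X i)) = x := by
    intro x
    obtain ⟨i, hi⟩ := hJS x.2
    exact ⟨i, by rw [hf, MvPolynomial.aeval_X]; exact hi⟩
  choose w hw using hex
  have hinj : Function.Injective f := by
    refine injective_of_algebraicIndependent f
      (fun i => Ideal.Quotient.mk I (MvPolynomial.X (w (e i)))) ?_ ?_
    · have h3 : f ∘ (fun i => Ideal.Quotient.mk I (MvPolynomial.X (w (e i)))) =
          Subtype.val ∘ e := by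
        funext x
        exact hw _
      rw [h3]
      exact (matroid_indep_iff.1 hJ).comp _ e.injective
    · rw [hX.tr]; norm_num
  rw [← Ideal.Quotient.eq_zero_iff_mem]
  apply hinj
  rw [map_zero, hf, aeval_cone_hom z hG, h0, map_zero, mul_zero]

theorem isAlgebraic_extend {k L C : Type*} [Field k] [Field L] [CommRing C] [Algebra k L]
    [Algebra L C] [Algebra k C] [IsScalarTower k L C] {Y : Set C} {c : C}
    (h : IsAlgebraic (Algebra.adjoin k Y) c) : IsAlgebraic (Algebra.adjoin L Y) c := by
  have hle : ∀ x ∈ Algebra.adjoin k Y, x ∈ Algebra.adjoin L Y := by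
    intro x hx
    have h1 : Algebra.adjoin k Y ≤ (Algebra.adjoin L Y).restrictScalars k := by
      rw [Algebra.adjoin_le_iff]
      exact fun y hy => Algebra.subset_adjoin hy
    exact h1 hx
  let f : Algebra.adjoin k Y →+* Algebra.adjoin L Y :=
    { toFun := fun x => ⟨x, hle x x.2⟩
      map_one' := rfl
      map_mul' := fun _ _ => rfl
      map_zero' := rfl
      map_add' := fun _ _ => rfl }
  have hf : Function.Injective f := by
    intro x y hxy
    exact Subtype.ext (congrArg (fun w : Algebra.adjoin L Y => (w : C)) hxy)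
  refine h.ringHom_of_comp_eq f (RingHom.id C) hf ?_
  ext x
  rfl

/-- The ring of the surface over an extension field has transcendence degree at most three. -/
theorem trdeg_map_le (hX : Surf I) (L : Type u) [Field L] [Algebra k0 L] :
    Algebra.trdeg L (MvPolynomial (Fin (N + 1)) L ⧸ I.map (MvPolynomial.map (algebraMap k0 L))) ≤
      3 := by
  classical
  have hprime := hX.prime
  have hprimeL := hX.geo L
  set IL : Ideal (MvPolynomial (Fin (N + 1)) L) := I.map (MvPolynomial.map (algebraMap k0 L))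
    with hIL
  let g0 : MvPolynomial (Fin (N + 1)) k0 →ₐ[k0] MvPolynomial (Fin (N + 1)) L ⧸ IL :=
    (Ideal.Quotient.mkₐ k0 IL).comp (MvPolynomial.mapAlgHom (Algebra.ofId k0 L))
  have hg0 : ∀ F, g0 F = Ideal.Quotient.mk IL (MvPolynomial.map (algebraMap k0 L) F) :=
    fun F => rfl
  let g : (MvPolynomial (Fin (N + 1)) k0 ⧸ I) →ₐ[k0] MvPolynomial (Fin (N + 1)) L ⧸ IL :=
    Ideal.Quotient.liftₐ I g0 (fun F hF => by
      rw [hg0, Ideal.Quotient.eq_zero_iff_mem]
      exact Ideal.mem_map_of_mem _ hF)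
  have hg : ∀ F, g (Ideal.Quotient.mk I F) =
      Ideal.Quotient.mk IL (MvPolynomial.map (algebraMap k0 L) F) := fun F => rfl
  have hinj : Function.Injective g := by
    rw [injective_iff_map_eq_zero]
    intro w hw
    obtain ⟨F, rfl⟩ := Ideal.Quotient.mk_surjective w
    rw [hg, Ideal.Quotient.eq_zero_iff_mem] at hw
    rw [Ideal.Quotient.eq_zero_iff_mem]
    refine coord_mem (L := L) (ι := Unit) (fun _ => 1) ?_ (fun _ => F) ?_ ()
    · exact LinearIndependent.of_subsingleton () one_ne_zero
    · simpa using hw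
  obtain ⟨ι, b, hb⟩ := exists_isTranscendenceBasis' (R := k0)
    (A := MvPolynomial (Fin (N + 1)) k0 ⧸ I)
  have hι : Cardinal.mk ι = 3 := by
    rw [hb.cardinalMk_eq_trdeg, hX.tr]
  have halg := hb.isAlgebraic
  let Y : Set (MvPolynomial (Fin (N + 1)) L ⧸ IL) := g '' Set.range b
  have hXi : ∀ i, IsAlgebraic (Algebra.adjoin L Y)
      (Ideal.Quotient.mk IL (MvPolynomial.X i)) := by
    intro i
    apply isAlgebraic_extend (k := k0)
    have h1 := (isAlgebraic_image_iff g hinj).2
      (halg.isAlgebraic (Ideal.Quotient.mk I (MvPolynomial.X i)))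
    rw [hg, MvPolynomial.map_X] at h1
    exact h1
  have hall : Algebra.IsAlgebraic (Algebra.adjoin L Y) (MvPolynomial (Fin (N + 1)) L ⧸ IL) := by
    refine ⟨fun w => ?_⟩
    obtain ⟨F, rfl⟩ := Ideal.Quotient.mk_surjective w
    induction F using MvPolynomial.induction_on with
    | C a => exact isAlgebraic_algebraMap (algebraMap L (Algebra.adjoin L Y) a)
    | add p q hp hq => rw [map_add]; exact hp.add hq
    | mul_X p i hp => rw [map_mul]; exact hp.mul (hXi i)
  refine (Algebra.IsAlgebraic.trdeg_le_cardinalMk L Y).trans ?_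
  rw [← hι]
  exact Cardinal.mk_image_le.trans Cardinal.mk_range_le

/-- Rank over the field generated by the second point. -/
theorem two_le_eRk_over {z₁ z₂ : Fin (N + 1) → M}
    (h2 : (matroid k0 M).eRk (Set.range z₂) ≤ (2 : ℕ))
    (h4 : (4 : ℕ) ≤ (matroid k0 M).eRk (Set.range z₁ ∪ Set.range z₂)) :
    ((2 : ℕ) : ℕ∞) ≤
      (matroid (IntermediateField.adjoin k0 (Set.range z₂)) M).eRk (Set.range z₁) := by
  set L := IntermediateField.adjoin k0 (Set.range z₂) with hL
  apply le_eRk_of_le_trdeg
  let L' : IntermediateField L M := IntermediateField.adjoin L (Set.range z₁)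
  have hfs1 : FaithfulSMul k0 L :=
    (faithfulSMul_iff_algebraMap_injective k0 L).2 (algebraMap k0 L).injective
  have hfs2 : FaithfulSMul L L' :=
    (faithfulSMul_iff_algebraMap_injective L L').2 (algebraMap L L').injective
  have h1 : Algebra.trdeg k0 L + Algebra.trdeg L L' = Algebra.trdeg k0 L' :=
    trdeg_add_eq k0 L (A := L')
  have hle : IntermediateField.adjoin k0 (Set.range z₁ ∪ Set.range z₂) ≤
      L'.restrictScalars k0 := by
    rw [IntermediateField.adjoin_le_iff]
    rintro x (hx | hx)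
    · exact IntermediateField.subset_adjoin L _ hx
    · exact L'.algebraMap_mem (⟨x, IntermediateField.subset_adjoin k0 _ hx⟩ : L)
  have h3 : Algebra.trdeg k0 (IntermediateField.adjoin k0 (Set.range z₁ ∪ Set.range z₂)) ≤
      Algebra.trdeg k0 L' :=
    trdeg_le_of_injective (IntermediateField.inclusion hle) (IntermediateField.inclusion_injective hle)
  have h5 := (le_trdeg_of_le_eRk h4).trans h3
  rw [← h1] at h5
  have h6 : Algebra.trdeg k0 L ≤ ((2 : ℕ) : Cardinal) := trdeg_le_of_eRk_le h2
  by_contra hcon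
  push Not at hcon
  obtain ⟨n, hn⟩ := Cardinal.lt_aleph0.1 (hcon.trans (Cardinal.natCast_lt_aleph0))
  rw [hn] at h5 hcon
  have h7 := h5.trans (add_le_add h6 le_rfl)
  have h8 : n < 2 := by exact_mod_cast hcon
  have h9 : 4 ≤ 2 + n := by exact_mod_cast h7
  omega

/-- The equations over `k0(z₂)` of the point `z₁` are those of the surface. -/
theorem mem_map_of_aeval_cone (hX : Surf I) {z₁ z₂ : Fin (N + 1) → M} {c₁ : Fin (N + 1)}
    (hc₁ : z₁ c₁ = 1) (hz₁ : OnX I z₁)
    (h2 : (matroid k0 M).eRk (Set.range z₂) ≤ (2 : ℕ))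
    (h4 : (4 : ℕ) ≤ (matroid k0 M).eRk (Set.range z₁ ∪ Set.range z₂))
    (W : MvPolynomial (Fin (N + 1)) (IntermediateField.adjoin k0 (Set.range z₂)))
    (hW : MvPolynomial.aeval (fun i => (Polynomial.X : Polynomial M) * Polynomial.C (z₁ i)) W = 0) :
    W ∈ I.map (MvPolynomial.map
      (algebraMap k0 (IntermediateField.adjoin k0 (Set.range z₂)))) := by
  set L := IntermediateField.adjoin k0 (Set.range z₂) with hL
  set IL : Ideal (MvPolynomial (Fin (N + 1)) L) := I.map (MvPolynomial.map (algebraMap k0 L))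
    with hIL
  have hprimeL : IL.IsPrime := hX.geo L
  have hr := le_eRk_cone (k0 := L) hc₁ (two_le_eRk_over h2 h4)
  obtain ⟨J, hJS, hJ, hJn⟩ := Matroid.le_eRk_iff.1 hr
  let ψ : MvPolynomial (Fin (N + 1)) L →ₐ[L] Polynomial M :=
    MvPolynomial.aeval (fun i => (Polynomial.X : Polynomial M) * Polynomial.C (z₁ i))
  have hker : IL ≤ RingHom.ker ψ := by
    rw [hIL, Ideal.map_le_iff_le_comap]
    intro F hF
    rw [Ideal.mem_comap, RingHom.mem_ker]
    change MvPolynomial.aeval _ (MvPolynomial.map (algebraMap k0 L) F) = 0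
    rw [MvPolynomial.aeval_map_algebraMap]
    exact cone_of_onX hX hz₁ F hF
  let f : (MvPolynomial (Fin (N + 1)) L ⧸ IL) →ₐ[L] Polynomial M :=
    Ideal.Quotient.liftₐ IL ψ (fun F hF => hker hF)
  have hf : ∀ F, f (Ideal.Quotient.mk IL F) = ψ F := fun F => rfl
  have hfin : J.Finite := Set.finite_of_encard_eq_coe hJn
  have hcard : Nat.card J = 3 := by
    rw [Nat.card_coe_set_eq, Set.ncard_def, hJn]; rfl
  have hFi : Finite J := hfin
  let e : Fin 3 ≃ J := (Finite.equivFinOfCardEq hcard).symm
  have hex : ∀ x : J, ∃ i, f (Ideal.Quotient.mk IL (MvPolynomial.X i)) = x := by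
    intro x
    obtain ⟨i, hi⟩ := hJS x.2
    refine ⟨i, ?_⟩
    rw [hf]
    change MvPolynomial.aeval _ (MvPolynomial.X i) = _
    rw [MvPolynomial.aeval_X]; exact hi
  choose w hw using hex
  have hinj : Function.Injective f := by
    refine injective_of_algebraicIndependent f
      (fun i => Ideal.Quotient.mk IL (MvPolynomial.X (w (e i)))) ?_ ?_
    · have h3 : f ∘ (fun i => Ideal.Quotient.mk IL (MvPolynomial.X (w (e i)))) =
          Subtype.val ∘ e := by
        funext x
        exact hw _
      rw [h3]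
      exact (matroid_indep_iff.1 hJ).comp _ e.injective
    · exact (trdeg_map_le hX L).trans (by norm_num)
  rw [← Ideal.Quotient.eq_zero_iff_mem]
  apply hinj
  rw [map_zero, hf]
  exact hW

end surf

end Pool.Agent.Helper20.DER
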