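import Pool.Agent.Helper20.DER.Tensor

/-!
# Linear disjointness over an algebraically closed field from the count of transcendence degrees
-/

namespace Pool.Agent.Helper20.DER

open AlgebraicIndependent TensorProduct

section general

variable {k A C : Type*} [Field k] [CommRing A] [CommRing C] [Algebra k A] [Algebra k C]

theorem isAlgebraic_image_iff (g : A →ₐ[k] C) (hg : Function.Injective g) {X : Set A} {a : A} :
    IsAlgebraic (Algebra.adjoin k (g '' X)) (g a) ↔ IsAlgebraic (Algebra.adjoin k X) a := by
  rw [← AlgHom.map_adjoin]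
  let e := (Algebra.adjoin k X).equivMapOfInjective g hg
  exact isAlgebraic_ringHom_iff_of_comp_eq e (g : A →+* C) hg rfl

theorem isAlgebraic_mono [IsDomain C] {X Y : Set C} (hXY : X ⊆ Y) {c : C}
    (h : IsAlgebraic (Algebra.adjoin k X) c) : IsAlgebraic (Algebra.adjoin k Y) c := by
  have : FaithfulSMul k C := inferInstance
  have h1 : c ∈ (matroid k C).closure X := by
    rw [matroid_closure_eq]; exact h
  have h2 := (matroid k C).closure_subset_closure hXY h1
  rw [matroid_closure_eq] at h2
  exact h2

end general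

/-- The transcendence degree of a tensor product. -/
theorem trdeg_tensor_le {k A B : Type*} [Field k] [CommRing A] [CommRing B] [Algebra k A]
    [Algebra k B] [IsDomain (A ⊗[k] B)] {X : Set A} {Y : Set B} {m n : ℕ}
    (hA : ∀ a : A, IsAlgebraic (Algebra.adjoin k X) a)
    (hB : ∀ b : B, IsAlgebraic (Algebra.adjoin k Y) b)
    (hX : X.encard ≤ m) (hY : Y.encard ≤ n) :
    Algebra.trdeg k (A ⊗[k] B) ≤ ((m + n : ℕ) : Cardinal) := by
  classical
  have hA0 : Nontrivial A := by
    by_contra hcon
    rw [not_nontrivial_iff_subsingleton] at hcon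
    have : Subsingleton (A ⊗[k] B) := inferInstance
    exact not_subsingleton _ this
  have hB0 : Nontrivial B := by
    by_contra hcon
    rw [not_nontrivial_iff_subsingleton] at hcon
    have : Subsingleton (A ⊗[k] B) := inferInstance
    exact not_subsingleton _ this
  let f : A →ₐ[k] A ⊗[k] B := Algebra.TensorProduct.includeLeft
  let g : B →ₐ[k] A ⊗[k] B := Algebra.TensorProduct.includeRight
  have hf : Function.Injective f := Algebra.TensorProduct.includeLeft_injective (algebraMap k B).injective
  have hg : Function.Injective g := Algebra.TensorProduct.includeRight_injective (algebraMap k A).injective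
  let s : Set (A ⊗[k] B) := f '' X ∪ g '' Y
  have hs : s.encard ≤ ((m + n : ℕ) : ℕ∞) := by
    refine (Set.encard_union_le _ _).trans ?_
    rw [hf.encard_image, hg.encard_image]
    push_cast
    exact add_le_add hX hY
  have halg : Algebra.IsAlgebraic (Algebra.adjoin k s) (A ⊗[k] B) := by
    refine ⟨fun w => ?_⟩
    have hmem : w ∈ Subalgebra.algebraicClosure (Algebra.adjoin k s) (A ⊗[k] B) := by
      induction w using TensorProduct.induction_on with
      | zero => exact zero_mem _
      | add x y hx hy => exact add_mem hx hy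
      | tmul a b =>
        have h1 : a ⊗ₜ[k] b = f a * g b := by
          simp [f, g]
        rw [h1]
        refine mul_mem ?_ ?_
        · exact isAlgebraic_mono Set.subset_union_left ((isAlgebraic_image_iff f hf).2 (hA a))
        · exact isAlgebraic_mono Set.subset_union_right ((isAlgebraic_image_iff g hg).2 (hB b))
    exact hmem
  have h1 : Algebra.trdeg k (A ⊗[k] B) ≤ Cardinal.mk s := Algebra.IsAlgebraic.trdeg_le_cardinalMk k s
  refine h1.trans ?_
  rw [← Cardinal.toENat_le_natCast]
  exact hs

variable {k0 M : Type*} [Field k0] [Field M] [Algebra k0 M]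

/-- The algebra generated by `S` is algebraic over the algebra generated by a set of at most
`rank S` elements. -/
theorem exists_small {S : Set M} {m : ℕ} (h : (matroid k0 M).eRk S ≤ m) :
    ∃ X : Set (Algebra.adjoin k0 S), X.encard ≤ m ∧
      ∀ a : Algebra.adjoin k0 S, IsAlgebraic (Algebra.adjoin k0 X) a := by
  obtain ⟨I, hI⟩ := (matroid k0 M).exists_isBasis S (by rw [matroid_e]; exact Set.subset_univ _)
  have hIX : (Subtype.val : Algebra.adjoin k0 S → M) '' (Subtype.val ⁻¹' I) = I := by
    rw [Set.image_preimage_eq_iff, Subtype.range_coe]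
    exact fun x hx => Algebra.subset_adjoin (hI.subset hx)
  refine ⟨Subtype.val ⁻¹' I, ?_, fun a => ?_⟩
  · rw [← Subtype.val_injective.encard_image, hIX, hI.encard_eq_eRk]
    exact h
  · have h1 : (a : M) ∈ (matroid k0 M).closure I := by
      rw [hI.closure_eq_closure]
      exact adjoin_subset_closure S (IntermediateField.algebra_adjoin_le_adjoin k0 S a.2)
    rw [mem_closure_iff] at h1
    have h2 := isAlgebraic_image_iff (Algebra.adjoin k0 S).val Subtype.val_injective
      (X := (Subtype.val ⁻¹' I : Set (Algebra.adjoin k0 S))) (a := a)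
    rw [← h2]
    have h3 : (Algebra.adjoin k0 S).val '' (Subtype.val ⁻¹' I : Set (Algebra.adjoin k0 S)) = I := hIX
    rw [h3]
    exact h1

/-- Linear disjointness from the count of transcendence degrees. -/
theorem linearDisjoint_adjoin [IsAlgClosed k0] {S T : Set M} (hS : S.Finite) {m n : ℕ}
    (hSm : (matroid k0 M).eRk S ≤ m) (hTn : (matroid k0 M).eRk T ≤ n)
    (hST : ((m + n : ℕ) : ℕ∞) ≤ (matroid k0 M).eRk (S ∪ T)) :
    (Algebra.adjoin k0 S).LinearDisjoint (Algebra.adjoin k0 T) := by
  classical
  set A := Algebra.adjoin k0 S with hA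
  set B := Algebra.adjoin k0 T with hB
  have hfg : A.FG := ⟨hS.toFinset, by rw [Set.Finite.coe_toFinset]⟩
  have hft : Algebra.FiniteType k0 A := A.fg_iff_finiteType.1 hfg
  have hdom : IsDomain (A ⊗[k0] B) := isDomain_tensorProduct k0 A B
  obtain ⟨X, hXm, hX⟩ := exists_small hSm
  obtain ⟨Y, hYn, hY⟩ := exists_small hTn
  have htr : Algebra.trdeg k0 (A ⊗[k0] B) ≤ ((m + n : ℕ) : Cardinal) :=
    trdeg_tensor_le hX hY hXm hYn
  rw [Subalgebra.linearDisjoint_iff_injective]
  obtain ⟨I, hIS, hI, hIn⟩ := Matroid.le_eRk_iff.1 hST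
  have hfin : I.Finite := Set.finite_of_encard_eq_coe hIn
  have hcard : Nat.card I = m + n := by
    rw [Nat.card_coe_set_eq, Set.ncard_def, hIn]; rfl
  have hF : Finite I := hfin
  let e : Fin (m + n) ≃ I := (Finite.equivFinOfCardEq hcard).symm
  have hex : ∀ x : M, x ∈ S ∪ T → ∃ w : A ⊗[k0] B, A.mulMap B w = x := by
    rintro x (hx | hx)
    · refine ⟨⟨x, Algebra.subset_adjoin hx⟩ ⊗ₜ 1, ?_⟩
      simp
    · refine ⟨1 ⊗ₜ ⟨x, Algebra.subset_adjoin hx⟩, ?_⟩
      simp
  choose! w hw using hex
  refine injective_of_algebraicIndependent (A.mulMap B) (fun i => w (e i)) ?_ htr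
  have h1 : (A.mulMap B) ∘ (fun i => w (e i)) = Subtype.val ∘ e := by
    funext i
    exact hw _ (hIS (e i).2)
  rw [h1]
  exact (matroid_indep_iff.1 hI).comp _ e.injective

end Pool.Agent.Helper20.DER
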