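import Pool.Agent.Helper20.DER.Disj
import Mathlib.RingTheory.Algebraic.MvPolynomial
import Mathlib.RingTheory.MvPolynomial.Homogeneous

/-!
# Cones: homogeneous coordinates with an extra variable, and specialisations of generic points
-/

namespace Pool.Agent.Helper20.DER

open AlgebraicIndependent TensorProduct

section dom

variable {k C : Type*} [Field k] [CommRing C] [IsDomain C] [Algebra k C]

theorem mem_clos {S : Set C} {x : C} :
    x ∈ (matroid k C).closure S ↔ IsAlgebraic (Algebra.adjoin k S) x := by
  rw [matroid_closure_eq]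
  rfl

theorem subset_clos (S : Set C) : S ⊆ (matroid k C).closure S :=
  (matroid k C).subset_closure S (by rw [matroid_e]; exact Set.subset_univ _)

theorem mul_mem_clos {S : Set C} {x y : C} (hx : x ∈ (matroid k C).closure S)
    (hy : y ∈ (matroid k C).closure S) : x * y ∈ (matroid k C).closure S := by
  rw [mem_clos] at *
  exact hx.mul hy

theorem adjoin_subset_clos (S : Set C) :
    ((Algebra.adjoin k S : Subalgebra k C) : Set C) ⊆ (matroid k C).closure S := by
  intro x hx
  rw [mem_clos]
  exact isAlgebraic_algebraMap (⟨x, hx⟩ : Algebra.adjoin k S)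

/-- The algebra generated by `S` is algebraic over the algebra generated by a set of at most
`rank S` elements (domain version). -/
theorem exists_small' {S : Set C} {m : ℕ} (h : (matroid k C).eRk S ≤ m) :
    ∃ X : Set (Algebra.adjoin k S), X.encard ≤ m ∧
      ∀ a : Algebra.adjoin k S, IsAlgebraic (Algebra.adjoin k X) a := by
  obtain ⟨I, hI⟩ := (matroid k C).exists_isBasis S (by rw [matroid_e]; exact Set.subset_univ _)
  have hIX : (Subtype.val : Algebra.adjoin k S → C) '' (Subtype.val ⁻¹' I) = I := by
    rw [Set.image_preimage_eq_iff, Subtype.range_coe]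
    exact fun x hx => Algebra.subset_adjoin (hI.subset hx)
  refine ⟨Subtype.val ⁻¹' I, ?_, fun a => ?_⟩
  · rw [← Subtype.val_injective.encard_image, hIX, hI.encard_eq_eRk]
    exact h
  · have h1 : (a : C) ∈ (matroid k C).closure I := by
      rw [hI.closure_eq_closure]
      exact adjoin_subset_clos S a.2
    rw [mem_clos] at h1
    have h2 := isAlgebraic_image_iff (Algebra.adjoin k S).val Subtype.val_injective
      (X := (Subtype.val ⁻¹' I : Set (Algebra.adjoin k S))) (a := a)
    rw [← h2]
    have h3 : (Algebra.adjoin k S).val '' (Subtype.val ⁻¹' I : Set (Algebra.adjoin k S)) = I := hIX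
    rw [h3]
    exact h1

theorem trdeg_adjoin_le {S : Set C} {m : ℕ} (h : (matroid k C).eRk S ≤ m) :
    Algebra.trdeg k (Algebra.adjoin k S) ≤ (m : Cardinal) := by
  obtain ⟨X, hX, halg⟩ := exists_small' h
  have : Algebra.IsAlgebraic (Algebra.adjoin k X) (Algebra.adjoin k S) := ⟨halg⟩
  have h1 : Algebra.trdeg k (Algebra.adjoin k S) ≤ Cardinal.mk X :=
    Algebra.IsAlgebraic.trdeg_le_cardinalMk k X
  refine h1.trans ?_
  rw [← Cardinal.toENat_le_natCast]
  exact hX

end dom

/-- A specialisation which does not lower the rank is an isomorphism. -/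
theorem specialise_injective {k C₁ C₂ κ : Type*} [Field k] [CommRing C₁] [IsDomain C₁]
    [Algebra k C₁] [CommRing C₂] [IsDomain C₂] [Algebra k C₂] (x : κ → C₁) (z : κ → C₂) {n : ℕ}
    (hx : (matroid k C₁).eRk (Set.range x) ≤ n) (hz : (n : ℕ∞) ≤ (matroid k C₂).eRk (Set.range z))
    (h : ∀ F : MvPolynomial κ k, MvPolynomial.aeval x F = 0 → MvPolynomial.aeval z F = 0)
    (F : MvPolynomial κ k) (hF : MvPolynomial.aeval z F = 0) : MvPolynomial.aeval x F = 0 := by
  classical
  let φ : MvPolynomial κ k →ₐ[k] C₁ := MvPolynomial.aeval x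
  let ψ : MvPolynomial κ k →ₐ[k] C₂ := MvPolynomial.aeval z
  let J : Ideal (MvPolynomial κ k) := RingHom.ker φ
  have hJ : J.IsPrime := RingHom.ker_isPrime φ
  let B := MvPolynomial κ k ⧸ J
  let f : B →ₐ[k] C₂ := Ideal.Quotient.liftₐ J ψ (fun F hF => h F hF)
  have hf : ∀ F, f (Ideal.Quotient.mk J F) = ψ F := fun F => rfl
  -- `B` is the algebra generated by the `x i`
  have hrange : φ.range = Algebra.adjoin k (Set.range x) :=
    (Algebra.adjoin_range_eq_range_aeval k x).symm
  have htr : Algebra.trdeg k B ≤ (n : Cardinal) := by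
    have h1 := trdeg_adjoin_le hx
    rw [← hrange] at h1
    let g : B →ₐ[k] φ.range := Ideal.Quotient.liftₐ J φ.rangeRestrict (fun F hF => by
      apply Subtype.ext
      exact hF)
    have hg : Function.Injective g := by
      rw [injective_iff_map_eq_zero]
      intro b hb
      obtain ⟨F, rfl⟩ := Ideal.Quotient.mk_surjective b
      rw [Ideal.Quotient.eq_zero_iff_mem]
      exact congrArg Subtype.val hb
    have h2 := lift_trdeg_le_of_injective g hg
    have h3 := h2.trans (Cardinal.lift_le.2 h1)
    simpa using h3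
  obtain ⟨I, hIS, hI, hIn⟩ := Matroid.le_eRk_iff.1 hz
  have hfin : I.Finite := Set.finite_of_encard_eq_coe hIn
  have hcard : Nat.card I = n := by
    rw [Nat.card_coe_set_eq, Set.ncard_def, hIn]; rfl
  have hFi : Finite I := hfin
  let e : Fin n ≃ I := (Finite.equivFinOfCardEq hcard).symm
  have hex : ∀ i : Fin n, ∃ j : κ, z j = (e i : C₂) := fun i => hIS (e i).2
  choose w hw using hex
  have hinj : Function.Injective f := by
    refine injective_of_algebraicIndependent f
      (fun i => Ideal.Quotient.mk J (MvPolynomial.X (w i))) ?_ htr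
    have h1 : f ∘ (fun i => Ideal.Quotient.mk J (MvPolynomial.X (w i))) = Subtype.val ∘ e := by
      funext i
      change f (Ideal.Quotient.mk J (MvPolynomial.X (w i))) = _
      rw [hf]
      change MvPolynomial.aeval z (MvPolynomial.X (w i)) = _
      rw [MvPolynomial.aeval_X]
      exact hw i
    rw [h1]
    exact (matroid_indep_iff.1 hI).comp _ e.injective
  have h2 : Ideal.Quotient.mk J F = 0 := by
    apply hinj
    rw [hf, map_zero]
    exact hF
  exact Ideal.Quotient.eq_zero_iff_mem.1 h2

section poly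

open Polynomial

variable {k0 M : Type*} [Field k0] [Field M] [Algebra k0 M]

theorem eRk_C_image_le {S : Set M} {n : ℕ} (h : (matroid k0 M).eRk S ≤ n) :
    (matroid k0 M[X]).eRk ((C : M →+* M[X]) '' S) ≤ n := by
  obtain ⟨I, hI⟩ := (matroid k0 M).exists_isBasis S (by rw [matroid_e]; exact Set.subset_univ _)
  have h1 : (C : M →+* M[X]) '' S ⊆ (matroid k0 M[X]).closure ((C : M →+* M[X]) '' I) := by
    rintro _ ⟨x, hx, rfl⟩
    have h2 : x ∈ (matroid k0 M).closure I := by
      rw [hI.closure_eq_closure]; exact subset_clos S hx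
    rw [mem_clos] at h2 ⊢
    exact (isAlgebraic_image_iff (CAlgHom : M →ₐ[k0] M[X]) C_injective).2 h2
  refine ((matroid k0 M[X]).eRk_mono h1).trans ?_
  rw [Matroid.eRk_closure_eq]
  refine (Matroid.eRk_le_encard _ _).trans ?_
  rw [C_injective.encard_image, hI.encard_eq_eRk]
  exact h

/-- The rank of the cone over a point is at most one more than the rank of the point. -/
theorem eRk_cone_le {κ : Type*} {z : κ → M} {n : ℕ} (h : (matroid k0 M).eRk (Set.range z) ≤ n) :
    (matroid k0 M[X]).eRk (Set.range fun i => (X : M[X]) * C (z i)) ≤ ((n + 1 : ℕ) : ℕ∞) := by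
  have h1 : (Set.range fun i => (X : M[X]) * C (z i)) ⊆
      (matroid k0 M[X]).closure (((C : M →+* M[X]) '' Set.range z) ∪ {X}) := by
    rintro _ ⟨i, rfl⟩
    refine mul_mem_clos (subset_clos _ (Or.inr rfl)) (subset_clos _ (Or.inl ⟨z i, ⟨i, rfl⟩, rfl⟩))
  refine ((matroid k0 M[X]).eRk_mono h1).trans ?_
  rw [Matroid.eRk_closure_eq]
  refine (Matroid.eRk_union_le_eRk_add_encard _ _ _).trans ?_
  rw [Set.encard_singleton]
  push_cast
  exact add_le_add (eRk_C_image_le h) le_rfl

theorem X_notMem_closure (I : Set M) :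
    (X : M[X]) ∉ (matroid k0 M[X]).closure ((C : M →+* M[X]) '' I) := by
  intro hX
  rw [mem_clos] at hX
  have hsub : ∀ w ∈ Algebra.adjoin k0 ((C : M →+* M[X]) '' I), C (w.eval 0) = w := by
    intro w hw
    have h1 : Algebra.adjoin k0 ((C : M →+* M[X]) '' I) ≤ (CAlgHom : M →ₐ[k0] M[X]).range := by
      rw [Algebra.adjoin_le_iff]
      rintro _ ⟨m, -, rfl⟩
      exact ⟨m, rfl⟩
    obtain ⟨m, rfl⟩ := h1 hw
    change C ((C m).eval 0) = C m
    rw [eval_C]
  let f : Algebra.adjoin k0 ((C : M →+* M[X]) '' I) →+* M :=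
    (evalRingHom 0).comp (Algebra.adjoin k0 ((C : M →+* M[X]) '' I)).val.toRingHom
  have hf : Function.Injective f := by
    rw [injective_iff_map_eq_zero]
    intro w hw
    apply Subtype.ext
    rw [← hsub w w.2]
    change C (f w) = _
    rw [hw, map_zero]
    rfl
  have h2 : IsAlgebraic M (X : M[X]) := by
    refine hX.ringHom_of_comp_eq f (RingHom.id M[X]) hf ?_
    ext1 w
    exact hsub w w.2
  exact (Polynomial.transcendental_X M) h2

/-- The rank of the cone over a (normalised) point is at least one more than the rank of the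
point. -/
theorem le_eRk_cone {κ : Type*} {z : κ → M} {c : κ} (hc : z c = 1) {n : ℕ}
    (h : (n : ℕ∞) ≤ (matroid k0 M).eRk (Set.range z)) :
    ((n + 1 : ℕ) : ℕ∞) ≤ (matroid k0 M[X]).eRk (Set.range fun i => (X : M[X]) * C (z i)) := by
  obtain ⟨I, hIS, hI, hIn⟩ := Matroid.le_eRk_iff.1 h
  set T : Set M[X] := Set.range fun i => (X : M[X]) * C (z i) with hT
  have hX : (X : M[X]) ∈ T := ⟨c, by simp [hc]⟩
  have hC : ∀ m ∈ Set.range z, C m ∈ (matroid k0 M[X]).closure T := by
    rintro _ ⟨i, rfl⟩
    rw [mem_clos]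
    have hXA : (X : M[X]) ∈ Algebra.adjoin k0 T := Algebra.subset_adjoin hX
    have hiA : (X : M[X]) * C (z i) ∈ Algebra.adjoin k0 T := Algebra.subset_adjoin ⟨i, rfl⟩
    refine ⟨C (⟨X, hXA⟩ : Algebra.adjoin k0 T) * X - C ⟨_, hiA⟩, ?_, ?_⟩
    · intro h0
      have h1 := congrArg (fun p => coeff p 1) h0
      simp only [coeff_sub, coeff_C_mul, coeff_X_one, mul_one, coeff_zero] at h1
      rw [coeff_C_of_ne_zero one_ne_zero, sub_zero] at h1
      exact X_ne_zero (R := M) (congrArg Subtype.val h1)
    · simp only [map_sub, map_mul, aeval_C, aeval_X]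
      exact sub_self _
  have hind : (matroid k0 M[X]).Indep ((C : M →+* M[X]) '' I) := by
    rw [matroid_indep_iff]
    have h1 : AlgebraicIndependent k0 (Subtype.val : I → M) := matroid_indep_iff.1 hI
    have h2 : AlgebraicIndependent k0 (fun i : I => (C : M →+* M[X]) i) :=
      h1.map' (f := (CAlgHom : M →ₐ[k0] M[X])) C_injective
    have h3 := h2.coe_range
    have h4 : Set.range (fun i : I => (C : M →+* M[X]) i) = (C : M →+* M[X]) '' I := by
      rw [Set.image_eq_range]
    rw [h4] at h3
    exact h3
  have hins : (matroid k0 M[X]).Indep (insert X ((C : M →+* M[X]) '' I)) := by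
    rw [Matroid.Indep.insert_indep_iff hind]
    left
    exact ⟨by rw [matroid_e]; exact Set.mem_univ _, X_notMem_closure I⟩
  have hle : insert (X : M[X]) ((C : M →+* M[X]) '' I) ⊆ (matroid k0 M[X]).closure T := by
    rintro w (rfl | ⟨m, hm, rfl⟩)
    · exact subset_clos _ hX
    · exact hC m (hIS hm)
  have h5 := (matroid k0 M[X]).eRk_mono hle
  rw [Matroid.eRk_closure_eq, hins.eRk_eq_encard, Set.encard_insert_of_notMem,
    C_injective.encard_image, hIn] at h5
  · push_cast
    exact h5
  · intro hmem
    exact X_notMem_closure (k0 := k0) I (subset_clos _ hmem)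

/-- The value of a homogeneous polynomial on the cone. -/
theorem aeval_cone_hom {κ : Type*} (z : κ → M) {G : MvPolynomial κ k0} {d : ℕ}
    (hG : G.IsHomogeneous d) :
    MvPolynomial.aeval (fun i => (X : M[X]) * C (z i)) G =
      X ^ d * C (MvPolynomial.aeval z G) := by
  rw [MvPolynomial.aeval_def, MvPolynomial.aeval_def, MvPolynomial.eval₂_eq, MvPolynomial.eval₂_eq,
    map_sum, Finset.mul_sum]
  refine Finset.sum_congr rfl fun m hm => ?_
  have h1 : ∑ i ∈ m.support, m i = d := by
    have h2 := hG (MvPolynomial.mem_support_iff.1 hm)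
    have h4 : m.degree = d := by
      rw [Finsupp.degree_eq_weight_one]
      exact h2
    exact h4
  simp only [mul_pow, Finset.prod_mul_distrib, Finset.prod_pow_eq_pow_sum, h1, map_mul, map_prod,
    map_pow]
  have h3 : algebraMap k0 M[X] (MvPolynomial.coeff m G) =
      C (algebraMap k0 M (MvPolynomial.coeff m G)) := rfl
  rw [h3]
  ring

/-- The value of a polynomial on the cone. -/
theorem aeval_cone {κ : Type*} (z : κ → M) (F : MvPolynomial κ k0) :
    MvPolynomial.aeval (fun i => (X : M[X]) * C (z i)) F =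
      ∑ d ∈ Finset.range (F.totalDegree + 1),
        X ^ d * C (MvPolynomial.aeval z (MvPolynomial.homogeneousComponent d F)) := by
  conv_lhs => rw [← MvPolynomial.sum_homogeneousComponent F, map_sum]
  exact Finset.sum_congr rfl fun d _ =>
    aeval_cone_hom z (MvPolynomial.homogeneousComponent_isHomogeneous d F)

/-- A polynomial vanishes on the cone iff its homogeneous components vanish at the point. -/
theorem aeval_cone_eq_zero_iff {κ : Type*} (z : κ → M) (F : MvPolynomial κ k0) :
    MvPolynomial.aeval (fun i => (X : M[X]) * C (z i)) F = 0 ↔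
      ∀ d, MvPolynomial.aeval z (MvPolynomial.homogeneousComponent d F) = 0 := by
  rw [aeval_cone]
  constructor
  · intro h d
    by_cases hd : d < F.totalDegree + 1
    · have h1 := congrArg (fun p => coeff p d) h
      simp only [finsetSum_coeff, coeff_zero] at h1
      rw [Finset.sum_eq_single d] at h1
      · rw [coeff_X_pow_mul', if_pos le_rfl, Nat.sub_self, coeff_C_zero] at h1
        exact h1
      · intro b _ hb
        rw [coeff_X_pow_mul']
        split_ifs with hbd
        · rw [coeff_C_of_ne_zero]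
          omega
        · rfl
      · intro h2
        exact absurd (Finset.mem_range.2 hd) h2
    · rw [MvPolynomial.homogeneousComponent_eq_zero _ _ (by omega), map_zero]
  · intro h
    exact Finset.sum_eq_zero fun d _ => by rw [h d, map_zero, mul_zero]

/-- A specialisation `z` of the point `x` (over `k0`, in projective space) which does not lower
the transcendence degree is generic: the same forms vanish at `x` and at `z`. -/
theorem generic_of_eRk {E κ : Type*} [Field E] [Algebra k0 E] (x : κ → E) (z : κ → M) {n : ℕ}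
    (hx : (matroid k0 E).eRk (Set.range x) ≤ n) {c : κ} (hc : z c = 1)
    (hz : (n : ℕ∞) ≤ (matroid k0 M).eRk (Set.range z))
    (h : ∀ (d : ℕ) (G : MvPolynomial κ k0), G.IsHomogeneous d →
      MvPolynomial.aeval x G = 0 → MvPolynomial.aeval z G = 0)
    (d : ℕ) (G : MvPolynomial κ k0) (hG : G.IsHomogeneous d) (hGz : MvPolynomial.aeval z G = 0) :
    MvPolynomial.aeval x G = 0 := by
  have h1 := specialise_injective (k := k0) (fun i => (X : E[X]) * C (x i))
    (fun i => (X : M[X]) * C (z i)) (n := n + 1) (eRk_cone_le hx) (le_eRk_cone hc hz) ?_ G ?_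
  · rw [aeval_cone_hom x hG] at h1
    have h2 := (mul_eq_zero.1 h1).resolve_left (pow_ne_zero _ X_ne_zero)
    exact C_eq_zero.1 h2
  · intro F hF
    rw [aeval_cone_eq_zero_iff] at hF ⊢
    exact fun d => h d _ (MvPolynomial.homogeneousComponent_isHomogeneous d F) (hF d)
  · rw [aeval_cone_hom z hG, hGz, map_zero, mul_zero]

end poly

end Pool.Agent.Helper20.DER
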