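import Pool.Agent.Helper20.DER.Nodes
import Mathlib.FieldTheory.IntermediateField.Adjoin.Basic
import Mathlib.RingTheory.AlgebraicIndependent.AlgebraicClosure

/-!
# The rank of a set in the matroid of algebraic independence and the transcendence degree
-/

namespace Pool.Agent.Helper20.DER

open AlgebraicIndependent

variable {k0 M : Type*} [Field k0] [Field M] [Algebra k0 M]

/-- Membership in the closure, in terms of algebraicity. -/
theorem mem_closure_iff {S : Set M} {x : M} :
    x ∈ (matroid k0 M).closure S ↔ IsAlgebraic (Algebra.adjoin k0 S) x := by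
  rw [matroid_closure_eq]
  rfl

theorem subset_closure' (S : Set M) : S ⊆ (matroid k0 M).closure S :=
  (matroid k0 M).subset_closure S (by rw [matroid_e]; exact Set.subset_univ _)

/-- The field generated by `S` lies in the closure of `S`. -/
theorem adjoin_subset_closure (S : Set M) :
    ((IntermediateField.adjoin k0 S : IntermediateField k0 M) : Set M) ⊆
      (matroid k0 M).closure S := by
  intro x hx
  induction hx using IntermediateField.adjoin_induction with
  | mem x hx => exact subset_closure' S hx
  | algebraMap x =>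
    rw [mem_closure_iff]
    have h : algebraMap k0 M x = algebraMap (Algebra.adjoin k0 S) M (algebraMap k0 _ x) := rfl
    rw [h]
    exact isAlgebraic_algebraMap _
  | add x y _ _ hx hy =>
    rw [mem_closure_iff] at *
    exact hx.add hy
  | inv x _ hx =>
    rw [mem_closure_iff] at *
    exact hx.inv
  | mul x y _ _ hx hy =>
    rw [mem_closure_iff] at *
    exact hx.mul hy

/-- The rank of `S` is the transcendence degree of the field generated by `S`. -/
theorem eRk_eq_toENat (S : Set M) :
    (matroid k0 M).eRk S =
      Cardinal.toENat (Algebra.trdeg k0 (IntermediateField.adjoin k0 S)) := by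
  obtain ⟨I, hI⟩ := (matroid k0 M).exists_isBasis S (by rw [matroid_e]; exact Set.subset_univ _)
  let K := IntermediateField.adjoin k0 S
  let y : I → K := fun x => ⟨x, IntermediateField.subset_adjoin k0 S (hI.subset x.2)⟩
  have hy : AlgebraicIndependent k0 y := by
    refine AlgebraicIndependent.of_comp K.val ?_
    exact (matroid_indep_iff.1 hI.indep)
  have halg : Algebra.IsAlgebraic (Algebra.adjoin k0 (Set.range y)) K := by
    refine ⟨fun x => ?_⟩
    have h1 : (x : M) ∈ (matroid k0 M).closure I := by
      rw [hI.closure_eq_closure]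
      exact adjoin_subset_closure S x.2
    rw [mem_closure_iff] at h1
    have hI' : Algebra.adjoin k0 (I : Set M) =
        (Algebra.adjoin k0 (Set.range y)).map (K.val : K →ₐ[k0] M) := by
      rw [AlgHom.map_adjoin, ← Set.range_comp]
      congr 1
      exact Subtype.range_coe.symm
    rw [hI'] at h1
    let e := (Algebra.adjoin k0 (Set.range y)).equivMapOfInjective K.val K.val.injective
    exact (isAlgebraic_ringHom_iff_of_comp_eq e (K.val : K →+* M) K.val.injective rfl).1 h1
  have hb : IsTranscendenceBasis k0 y := hy.isTranscendenceBasis_iff_isAlgebraic.mpr halg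
  rw [← hb.cardinalMk_eq_trdeg, ← hI.encard_eq_eRk]
  rfl

theorem le_eRk_of_le_trdeg {S : Set M} {n : ℕ}
    (h : (n : Cardinal) ≤ Algebra.trdeg k0 (IntermediateField.adjoin k0 S)) :
    (n : ℕ∞) ≤ (matroid k0 M).eRk S := by
  rw [eRk_eq_toENat]
  exact Cardinal.natCast_le_toENat.2 h

theorem eRk_le_of_trdeg_le {S : Set M} {n : ℕ}
    (h : Algebra.trdeg k0 (IntermediateField.adjoin k0 S) ≤ (n : Cardinal)) :
    (matroid k0 M).eRk S ≤ (n : ℕ∞) := by
  rw [eRk_eq_toENat]
  exact Cardinal.toENat_le_natCast.2 h

theorem trdeg_le_of_eRk_le {S : Set M} {n : ℕ} (h : (matroid k0 M).eRk S ≤ (n : ℕ∞)) :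
    Algebra.trdeg k0 (IntermediateField.adjoin k0 S) ≤ (n : Cardinal) := by
  rw [eRk_eq_toENat] at h
  exact Cardinal.toENat_le_natCast.1 h

end Pool.Agent.Helper20.DER
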