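import Mathlib.RingTheory.AlgebraicIndependent.TranscendenceBasis
import Mathlib.Combinatorics.Matroid.Rank.ENat

/-!
# Counting transcendence degrees at points on generic linear forms

Let the coefficients `l i j` of finitely many linear forms be algebraically independent over `k0`.
If `z a` are points (normalised: some coordinate is `1`) and if there are `r` incidences
`l_{f s} (z_{g s}) = 0`, each form being used at most once, then the coordinates of the points
contain at least `r` algebraically independent elements over `k0`.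
-/

namespace Pool.Agent.Helper20.DER

open AlgebraicIndependent

variable {k0 M : Type*} [Field k0] [Field M] [Algebra k0 M]

/-- The closure in the matroid of algebraic independence is closed under sums of products. -/
theorem sum_mul_mem_closure {κ : Type*} (S : Set M) (F : Finset κ) (u v : κ → M)
    (hu : ∀ j ∈ F, u j ∈ (matroid k0 M).closure S) (hv : ∀ j ∈ F, v j ∈ (matroid k0 M).closure S) :
    -(∑ j ∈ F, u j * v j) ∈ (matroid k0 M).closure S := by
  rw [matroid_closure_eq] at *
  simp only [SetLike.mem_coe] at *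
  exact neg_mem (sum_mem fun j hj => mul_mem (hu j hj) (hv j hj))

/-- The count, in terms of the rank in the matroid of algebraic independence. -/
theorem node_eRk {ι κ μ ρ : Type*} [Fintype ι] [Fintype κ] [Fintype ρ]
    (l : ι → κ → M) (hl : AlgebraicIndependent k0 fun p : ι × κ => l p.1 p.2)
    (z : μ → κ → M) (c : μ → κ) (hz : ∀ a, z a (c a) = 1)
    (f : ρ → ι) (hf : Function.Injective f) (g : ρ → μ)
    (h : ∀ s, ∑ j, l (f s) j * z (g s) j = 0) :
    (Fintype.card ρ : ℕ∞) ≤
      (matroid k0 M).eRk (Set.range fun p : μ × κ => z p.1 p.2) := by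
  classical
  set Mr := matroid k0 M with hMr
  set Z : Set M := Set.range fun p : μ × κ => z p.1 p.2 with hZ
  set L : ι × κ → M := fun p => l p.1 p.2 with hL
  let t : ρ → ι × κ := fun s => (f s, c (g s))
  have ht : Function.Injective t := fun s s' hs => hf (congrArg Prod.fst hs)
  let T : Finset (ι × κ) := Finset.univ.image t
  have hT : T.card = Fintype.card ρ := by
    rw [Finset.card_image_of_injective _ ht, Finset.card_univ]
  set A' : Set M := L '' ((Tᶜ : Finset (ι × κ)) : Set (ι × κ)) with hA'
  have hsub : Z ∪ A' ⊆ Mr.closure (Z ∪ A') :=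
    Mr.subset_closure (Z ∪ A') (by rw [hMr, matroid_e]; exact Set.subset_univ _)
  have hLin : Set.range L ⊆ Mr.closure (Z ∪ A') := by
    rintro _ ⟨p, rfl⟩
    by_cases hp : p ∈ T
    · obtain ⟨s, -, rfl⟩ := Finset.mem_image.1 hp
      have h1 : L (t s) = -(∑ j ∈ Finset.univ.erase (c (g s)), l (f s) j * z (g s) j) := by
        have h2 := h s
        rw [← Finset.add_sum_erase _ _ (Finset.mem_univ (c (g s))), hz, mul_one] at h2
        exact eq_neg_of_add_eq_zero_left h2
      rw [h1]
      refine sum_mul_mem_closure _ _ _ _ (fun j hj => ?_) (fun j _ => ?_)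
      · refine hsub (Or.inr ⟨(f s, j), ?_, rfl⟩)
        rw [Finset.mem_coe, Finset.mem_compl]
        intro hmem
        obtain ⟨s', -, hs'⟩ := Finset.mem_image.1 hmem
        have h3 : f s' = f s := congrArg Prod.fst hs'
        have h4 : c (g s') = j := congrArg Prod.snd hs'
        have h5 : s' = s := hf h3
        rw [h5] at h4
        exact (Finset.ne_of_mem_erase hj) h4.symm
      · exact hsub (Or.inl ⟨(g s, j), rfl⟩)
    · exact hsub (Or.inr ⟨p, by rw [Finset.mem_coe, Finset.mem_compl]; exact hp, rfl⟩)
  have hinj : Function.Injective L := hl.injective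
  have hind : Mr.Indep (Set.range L) := hl.coe_range
  have e1 : Mr.eRk (Set.range L) = (Fintype.card (ι × κ) : ℕ∞) := by
    rw [hind.eRk_eq_encard, ← Set.image_univ, hinj.encard_image, Set.encard_univ, ENat.card_eq_coe_fintype_card]
  have e2 : Mr.eRk (Set.range L) ≤ Mr.eRk Z + A'.encard := by
    refine (Mr.eRk_mono hLin).trans ?_
    rw [Mr.eRk_closure_eq]
    exact Mr.eRk_union_le_eRk_add_encard Z A'
  have e3 : A'.encard = ((Tᶜ : Finset (ι × κ)).card : ℕ∞) := by
    rw [hA', hinj.encard_image, Set.encard_coe_eq_coe_finsetCard]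
  have e4 : T.card + (Tᶜ : Finset (ι × κ)).card = Fintype.card (ι × κ) :=
    Finset.card_add_card_compl T
  rw [e1, e3, ← e4, hT] at e2
  push_cast at e2
  exact (ENat.add_le_add_iff_right (ENat.natCast_ne_top _)).1 e2

/-- The rank of a set of elements bounds the transcendence degree of the field they generate. -/
theorem le_trdeg_of_le_eRk {S : Set M} {n : ℕ} (h : (n : ℕ∞) ≤ (matroid k0 M).eRk S) :
    (n : Cardinal) ≤ Algebra.trdeg k0 (IntermediateField.adjoin k0 S) := by
  obtain ⟨I, hIS, hI, hIn⟩ := Matroid.le_eRk_iff.1 h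
  have hfin : I.Finite := Set.finite_of_encard_eq_coe hIn
  have hcard : Cardinal.mk I = n := by
    have h1 : I.ncard = n := by rw [Set.ncard_def, hIn]; rfl
    rw [← h1, Set.cast_ncard hfin]
  let y : I → IntermediateField.adjoin k0 S :=
    fun x => ⟨x, IntermediateField.subset_adjoin k0 S (hIS x.2)⟩
  have hy : AlgebraicIndependent k0 y := by
    refine AlgebraicIndependent.of_comp (IntermediateField.adjoin k0 S).val ?_
    exact (matroid_indep_iff.1 hI)
  have h2 := hy.cardinalMk_le_trdeg
  rwa [hcard] at h2

/-- The count, in terms of the transcendence degree. -/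
theorem node_trdeg {ι κ μ ρ : Type*} [Fintype ι] [Fintype κ] [Fintype ρ]
    (l : ι → κ → M) (hl : AlgebraicIndependent k0 fun p : ι × κ => l p.1 p.2)
    (z : μ → κ → M) (c : μ → κ) (hz : ∀ a, z a (c a) = 1)
    (f : ρ → ι) (hf : Function.Injective f) (g : ρ → μ)
    (h : ∀ s, ∑ j, l (f s) j * z (g s) j = 0) :
    (Fintype.card ρ : Cardinal) ≤ Algebra.trdeg k0
      (IntermediateField.adjoin k0 (Set.range fun p : μ × κ => z p.1 p.2)) :=
  le_trdeg_of_le_eRk (node_eRk l hl z c hz f hf g h)

end Pool.Agent.Helper20.DER
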