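import Pool.Agent.Helper20.DER.Geo
import Mathlib.RingTheory.MvPolynomial.EulerIdentity

/-!
# A surface containing the line through two independent generic points is a plane
-/

namespace Pool.Agent.Helper20.DER

open AlgebraicIndependent TensorProduct Pool.Agent.TRI

/-- The derivative along a line. -/
theorem deriv_line {k0 M κ : Type*} [Field k0] [Field M] [Algebra k0 M] [Fintype κ]
    [DecidableEq κ] (u v : κ → M) (G : MvPolynomial κ k0) :
    (Polynomial.derivative (MvPolynomial.aeval (fun j => Polynomial.C (u j) +
      Polynomial.X * Polynomial.C (v j)) G)).eval 0 =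
      ∑ j, MvPolynomial.aeval u (MvPolynomial.pderiv j G) * v j ∧
    (MvPolynomial.aeval (fun j => Polynomial.C (u j) +
      Polynomial.X * Polynomial.C (v j)) G : Polynomial M).eval 0 = MvPolynomial.aeval u G := by
  induction G using MvPolynomial.induction_on with
  | C a =>
    constructor
    · simp [Polynomial.algebraMap_apply]
    · simp [Polynomial.algebraMap_apply]
  | add p q hp hq =>
    constructor
    · rw [map_add, map_add, Polynomial.eval_add, hp.1, hq.1, ← Finset.sum_add_distrib]
      refine Finset.sum_congr rfl fun j _ => ?_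
      rw [map_add, map_add, add_mul]
    · rw [map_add, Polynomial.eval_add, hp.2, hq.2, map_add]
  | mul_X p i hp =>
    constructor
    · have h1 : ∀ j, MvPolynomial.aeval u (MvPolynomial.pderiv j (p * MvPolynomial.X i)) * v j =
          (MvPolynomial.aeval u (MvPolynomial.pderiv j p) * v j) * u i +
            if j = i then MvPolynomial.aeval u p * v i else 0 := by
        intro j
        rw [Derivation.leibniz, MvPolynomial.pderiv_X, smul_eq_mul, smul_eq_mul, map_add, map_mul,
          map_mul, MvPolynomial.aeval_X]
        by_cases hji : j = i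
        · subst hji
          simp
          ring
        · rw [if_neg hji, Pi.single_eq_of_ne (Ne.symm hji)]
          simp
          ring
      rw [Finset.sum_congr rfl fun j _ => h1 j, Finset.sum_add_distrib, ← Finset.sum_mul,
        Finset.sum_ite_eq', if_pos (Finset.mem_univ i), map_mul, Polynomial.derivative_mul,
        Polynomial.eval_add, Polynomial.eval_mul, Polynomial.eval_mul, hp.1, hp.2,
        MvPolynomial.aeval_X]
      simp
    · rw [map_mul, Polynomial.eval_mul, hp.2, MvPolynomial.aeval_X, map_mul, MvPolynomial.aeval_X]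
      simp

universe u

variable {k0 M : Type u} [Field k0] [CharZero k0] [Field M] [Algebra k0 M] {N : ℕ}
  {I : Ideal (MvPolynomial (Fin (N + 1)) k0)}

/-- **A surface which contains the line through two independent generic points is a plane.** -/
theorem plane_of_line (hX : Surf I) {z₁ z₂ : Fin (N + 1) → M} {c₁ c₂ : Fin (N + 1)}
    (hc₁ : z₁ c₁ = 1) (hc₂ : z₂ c₂ = 1) (hline : ∀ s t : M, OnX I fun j => s * z₁ j + t * z₂ j)
    (h4 : (4 : ℕ) ≤ (matroid k0 M).eRk (Set.range z₁ ∪ Set.range z₂)) : Plane I := by
  classical
  have : CharZero M := charZero_of_injective_algebraMap (algebraMap k0 M).injective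
  have hz₁ : OnX I z₁ := by simpa using hline 1 0
  have hz₂ : OnX I z₂ := by simpa using hline 0 1
  have hr₁ := eRk_le_two hX hc₁ hz₁
  have hr₂ := eRk_le_two hX hc₂ hz₂
  have hu := (matroid k0 M).eRk_union_le_eRk_add_eRk (Set.range z₁) (Set.range z₂)
  have hg₁ : (2 : ℕ) ≤ (matroid k0 M).eRk (Set.range z₁) := by
    by_contra hcon
    push Not at hcon
    have h5 : (matroid k0 M).eRk (Set.range z₁) ≤ 1 := Order.le_of_lt_add_one hcon
    have h6 : ((4 : ℕ) : ℕ∞) ≤ 1 + 2 := h4.trans (hu.trans (add_le_add h5 hr₂))
    exact absurd h6 (by norm_num)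
  have hg₂ : (2 : ℕ) ≤ (matroid k0 M).eRk (Set.range z₂) := by
    by_contra hcon
    push Not at hcon
    have h5 : (matroid k0 M).eRk (Set.range z₂) ≤ 1 := Order.le_of_lt_add_one hcon
    have h6 : ((4 : ℕ) : ℕ∞) ≤ 2 + 1 := h4.trans (hu.trans (add_le_add hr₁ h5))
    exact absurd h6 (by norm_num)
  -- a basis of the span of the coordinates of `z₁`
  obtain ⟨κ, a, ha, hspan, hlin⟩ := exists_linearIndependent' k0 z₁
  have hκ : Finite κ := Finite.of_injective a ha
  have hκ' : Fintype κ := Fintype.ofFinite κ
  -- forms in these coordinates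
  have hren : ∀ {d : ℕ} {G : MvPolynomial κ k0}, G.IsHomogeneous d →
      MvPolynomial.aeval (z₁ ∘ a) G = 0 → MvPolynomial.rename a G ∈ I := by
    intro d G hG h0
    refine mem_of_aeval_eq_zero hX hc₁ hz₁ hg₁ (hG.rename_isHomogeneous) ?_
    rw [MvPolynomial.aeval_rename]
    exact h0
  -- the coordinates of `z₂` are linearly independent
  set L := IntermediateField.adjoin k0 (Set.range z₂) with hL
  let v : κ → L := fun j => ⟨z₂ (a j), IntermediateField.subset_adjoin k0 _ ⟨a j, rfl⟩⟩
  have hv : LinearIndependent k0 v := by
    rw [Fintype.linearIndependent_iff] at hlin ⊢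
    intro c hc
    apply hlin
    have h5 : ∑ j, c j • z₂ (a j) = 0 := by
      have h6 := congrArg (algebraMap L M) hc
      rw [map_sum, map_zero] at h6
      rw [← h6]
      exact Finset.sum_congr rfl fun j _ => rfl
    let F : MvPolynomial (Fin (N + 1)) k0 := ∑ j, MvPolynomial.C (c j) * MvPolynomial.X (a j)
    have hF : F.IsHomogeneous 1 := by
      refine MvPolynomial.IsHomogeneous.sum _ _ _ fun j _ => ?_
      exact MvPolynomial.isHomogeneous_C_mul_X _ _
    have hval : ∀ z : Fin (N + 1) → M, MvPolynomial.aeval z F = ∑ j, c j • z (a j) := by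
      intro z
      rw [map_sum]
      refine Finset.sum_congr rfl fun j _ => ?_
      rw [map_mul, MvPolynomial.aeval_C, MvPolynomial.aeval_X, Algebra.smul_def]
    have h7 : F ∈ I := mem_of_aeval_eq_zero hX hc₂ hz₂ hg₂ hF (by rw [hval, h5])
    have h8 := hz₁ F h7
    rw [hval] at h8
    exact h8
  have key : ∀ (d : ℕ) (G : MvPolynomial κ k0), G.IsHomogeneous d →
      MvPolynomial.aeval (z₁ ∘ a) G = 0 → G = 0 := by
    intro d
    induction d with
    | zero =>
      intro G hG h0
      have h5 : G = MvPolynomial.C (MvPolynomial.coeff 0 G) :=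
        MvPolynomial.totalDegree_eq_zero_iff_eq_C.1 (Nat.le_zero.1 hG.totalDegree_le)
      rw [h5, MvPolynomial.aeval_C] at h0
      rw [h5, (map_eq_zero_iff _ (algebraMap k0 M).injective).1 h0, map_zero]
    | succ d ih =>
      intro G hG h0
      have hI : MvPolynomial.rename a G ∈ I := hren hG h0
      have hall : ∀ t : M, MvPolynomial.aeval (fun j => z₁ (a j) + t * z₂ (a j)) G = 0 := by
        intro t
        have h5 := hline 1 t _ hI
        rw [MvPolynomial.aeval_rename] at h5
        simpa [Function.comp_def] using h5
      have hp : (MvPolynomial.aeval (fun j => Polynomial.C (z₁ (a j)) +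
          Polynomial.X * Polynomial.C (z₂ (a j))) G : Polynomial M) = 0 := by
        apply Polynomial.funext
        intro t
        have h5 := MvPolynomial.comp_aeval_apply (R := k0) (f := fun j => Polynomial.C (z₁ (a j)) +
          Polynomial.X * Polynomial.C (z₂ (a j))) ((Polynomial.aeval t).restrictScalars k0) G
        change Polynomial.aeval t _ = _ at h5
        rw [Polynomial.coe_aeval_eq_eval] at h5
        rw [h5, Polynomial.eval_zero, ← hall t]
        have h6 : ∀ j : κ, ((Polynomial.aeval t : Polynomial M →ₐ[M] M).restrictScalars k0)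
            (Polynomial.C (z₁ (a j)) + Polynomial.X * Polynomial.C (z₂ (a j))) =
            z₁ (a j) + t * z₂ (a j) := by
          intro j
          change Polynomial.aeval t _ = _
          rw [Polynomial.coe_aeval_eq_eval, Polynomial.eval_add, Polynomial.eval_C,
            Polynomial.eval_mul, Polynomial.eval_X, Polynomial.eval_C]
        simp only [h6]
      have hd := (deriv_line (z₁ ∘ a) (z₂ ∘ a) G).1
      have hp' : (MvPolynomial.aeval (fun j => Polynomial.C ((z₁ ∘ a) j) +
          Polynomial.X * Polynomial.C ((z₂ ∘ a) j)) G : Polynomial M) = 0 := hp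
      rw [hp', Polynomial.derivative_zero, Polynomial.eval_zero] at hd
      have hP : ∀ j, (MvPolynomial.rename a (MvPolynomial.pderiv j G)).IsHomogeneous d :=
        fun j => (hG.pderiv).rename_isHomogeneous
      have hW := mem_map_of_aeval_cone hX hc₁ hz₁ hr₂ h4
        (∑ j, MvPolynomial.C (v j) * MvPolynomial.map (algebraMap k0 L)
          (MvPolynomial.rename a (MvPolynomial.pderiv j G))) (by
        rw [map_sum]
        have h5 : ∀ j, MvPolynomial.aeval
            (fun i => (Polynomial.X : Polynomial M) * Polynomial.C (z₁ i))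
            (MvPolynomial.C (v j) * MvPolynomial.map (algebraMap k0 L)
              (MvPolynomial.rename a (MvPolynomial.pderiv j G))) =
            Polynomial.X ^ d * Polynomial.C
              (MvPolynomial.aeval (z₁ ∘ a) (MvPolynomial.pderiv j G) * (z₂ ∘ a) j) := by
          intro j
          rw [map_mul, MvPolynomial.aeval_C, MvPolynomial.aeval_map_algebraMap,
            aeval_cone_hom z₁ (hP j), MvPolynomial.aeval_rename, Polynomial.C_mul]
          have h6 : algebraMap L (Polynomial M) (v j) = Polynomial.C (z₂ (a j)) := rfl
          rw [h6]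
          simp only [Function.comp_def]
          ring
        rw [Finset.sum_congr rfl fun j _ => h5 j, ← Finset.mul_sum, ← map_sum, ← hd, map_zero,
          mul_zero])
      have hder : ∀ j, MvPolynomial.pderiv j G = 0 := by
        intro j
        apply ih _ (hG.pderiv)
        have h5 := hz₁ _ (coord_mem v hv
          (fun j => MvPolynomial.rename a (MvPolynomial.pderiv j G)) hW j)
        rw [MvPolynomial.aeval_rename] at h5
        exact h5
      have heul := hG.sum_X_mul_pderiv
      simp only [hder, mul_zero, Finset.sum_const_zero] at heul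
      have h6 := heul.symm
      rw [nsmul_eq_mul] at h6
      rcases mul_eq_zero.1 h6 with h7 | h7
      · exact absurd h7 (by exact_mod_cast (Nat.succ_ne_zero d))
      · exact h7
  -- the cone over `z₁ ∘ a` is algebraically independent
  have hind : AlgebraicIndependent k0
      (fun j => (Polynomial.X : Polynomial M) * Polynomial.C ((z₁ ∘ a) j)) := by
    rw [algebraicIndependent_iff]
    intro F hF
    rw [aeval_cone_eq_zero_iff] at hF
    rw [← MvPolynomial.sum_homogeneousComponent F]
    exact Finset.sum_eq_zero fun d _ =>
      key d _ (MvPolynomial.homogeneousComponent_isHomogeneous d F) (hF d)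
  set T : Set (Polynomial M) :=
    Set.range fun j => (Polynomial.X : Polynomial M) * Polynomial.C ((z₁ ∘ a) j) with hT
  have hindT : (matroid k0 (Polynomial M)).Indep T := hind.coe_range
  have hTcard : T.encard = (Fintype.card κ : ℕ∞) := by
    rw [hT, ← Set.image_univ, hind.injective.encard_image, Set.encard_univ,
      ENat.card_eq_coe_fintype_card]
  have hle3 : Fintype.card κ ≤ 3 := by
    have h5 : (matroid k0 M).eRk (Set.range (z₁ ∘ a)) ≤ (2 : ℕ) :=
      ((matroid k0 M).eRk_mono (Set.range_comp_subset_range a z₁)).trans hr₁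
    have h6 := eRk_cone_le h5
    change (matroid k0 (Polynomial M)).eRk T ≤ _ at h6
    rw [hindT.eRk_eq_encard, hTcard] at h6
    exact_mod_cast h6
  have hge3 : 3 ≤ Fintype.card κ := by
    have h5 := le_eRk_cone hc₁ hg₁
    have h6 : (Set.range fun i => (Polynomial.X : Polynomial M) * Polynomial.C (z₁ i)) ⊆
        (matroid k0 (Polynomial M)).closure T := by
      rintro _ ⟨i, rfl⟩
      apply adjoin_subset_clos
      have h7 : z₁ i ∈ Submodule.span k0 (Set.range (z₁ ∘ a)) := by
        rw [hspan]
        exact Submodule.subset_span ⟨i, rfl⟩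
      refine Submodule.span_induction (p := fun x _ =>
        (Polynomial.X : Polynomial M) * Polynomial.C x ∈ Algebra.adjoin k0 T) ?_ ?_ ?_ ?_ h7
      · rintro _ ⟨j, rfl⟩
        exact Algebra.subset_adjoin ⟨j, rfl⟩
      · rw [map_zero, mul_zero]; exact zero_mem _
      · intro x y _ _ hx hy
        rw [map_add, mul_add]; exact add_mem hx hy
      · intro c x _ hx
        have h8 : (Polynomial.X : Polynomial M) * Polynomial.C (c • x) =
            c • (Polynomial.X * Polynomial.C x) := by
          rw [← Polynomial.smul_C, mul_smul_comm]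
        rw [h8]
        exact Subalgebra.smul_mem _ hx c
    have h9 := h5.trans ((matroid k0 (Polynomial M)).eRk_mono h6)
    rw [Matroid.eRk_closure_eq, hindT.eRk_eq_encard, hTcard] at h9
    exact_mod_cast h9
  have hker : linI I = LinearMap.ker (Fintype.linearCombination k0 z₁) := by
    ext m
    rw [LinearMap.mem_ker, Fintype.linearCombination_apply]
    let F : MvPolynomial (Fin (N + 1)) k0 := ∑ j, MvPolynomial.C (m j) * MvPolynomial.X j
    have hF : F.IsHomogeneous 1 := by
      refine MvPolynomial.IsHomogeneous.sum _ _ _ fun j _ => ?_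
      exact MvPolynomial.isHomogeneous_C_mul_X _ _
    have hval : MvPolynomial.aeval z₁ F = ∑ j, m j • z₁ j := by
      rw [map_sum]
      refine Finset.sum_congr rfl fun j _ => ?_
      rw [map_mul, MvPolynomial.aeval_C, MvPolynomial.aeval_X, Algebra.smul_def]
    constructor
    · intro hm
      rw [← hval]
      exact hz₁ F hm
    · intro hm
      exact mem_of_aeval_eq_zero hX hc₁ hz₁ hg₁ hF (by rw [hval, hm])
  have hrn := LinearMap.finrank_range_add_finrank_ker (Fintype.linearCombination k0 z₁)
  rw [Fintype.range_linearCombination, ← hspan, finrank_span_eq_card hlin, ← hker,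
    Module.finrank_fin_fun] at hrn
  change Module.finrank k0 (linI I) + 2 = N
  omega

end Pool.Agent.Helper20.DER
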