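import Pool.Agent.Helper20.DER.Erk
import Mathlib.RingTheory.Jacobson.Ring
import Mathlib.RingTheory.TensorProduct.Free
import Mathlib.RingTheory.LinearDisjoint
import Mathlib.RingTheory.Ideal.GoingUp
import Mathlib.FieldTheory.IsAlgClosed.Basic

/-!
# Tensor products of domains over an algebraically closed field, and linear disjointness
-/

namespace Pool.Agent.Helper20.DER

open AlgebraicIndependent TensorProduct

/-- Nullstellensatz: a nonzero element of a finitely generated domain over an algebraically closed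
field is nonzero at some point. -/
theorem exists_algHom_ne_zero {k A : Type*} [Field k] [IsAlgClosed k] [CommRing A] [IsDomain A]
    [Algebra k A] [Algebra.FiniteType k A] {a : A} (ha : a ≠ 0) : ∃ φ : A →ₐ[k] k, φ a ≠ 0 := by
  have hJ : IsJacobsonRing A := isJacobsonRing_of_finiteType (A := k) (B := A)
  have h1 : (⊥ : Ideal A).jacobson = ⊥ :=
    isJacobsonRing_iff_prime_eq.1 hJ ⊥ Ideal.isPrime_bot
  have h2 : ∃ m : Ideal A, m.IsMaximal ∧ a ∉ m := by
    by_contra hcon
    push Not at hcon
    apply ha
    have h3 : a ∈ (⊥ : Ideal A).jacobson := by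
      rw [Ideal.jacobson, Ideal.mem_sInf]
      rintro m ⟨-, hm⟩
      exact hcon m hm
    rw [h1] at h3
    exact h3
  obtain ⟨m, hm, ham⟩ := h2
  let := Ideal.Quotient.field m
  have hfin : Module.Finite k (A ⧸ m) := finite_of_finite_type_of_isJacobsonRing k (A ⧸ m)
  have hbij : Function.Bijective (algebraMap k (A ⧸ m)) :=
    IsAlgClosed.algebraMap_bijective_of_isIntegral
  let e : k ≃ₐ[k] (A ⧸ m) := AlgEquiv.ofBijective (Algebra.ofId k (A ⧸ m)) hbij
  refine ⟨(e.symm : (A ⧸ m) →ₐ[k] k).comp (Ideal.Quotient.mkₐ k m), fun h => ham ?_⟩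
  have h4 : e.symm (Ideal.Quotient.mk m a) = 0 := h
  rw [map_eq_zero_iff _ e.symm.injective] at h4
  exact Ideal.Quotient.eq_zero_iff_mem.1 h4

/-- The tensor product of two domains over an algebraically closed field is a domain. -/
theorem isDomain_tensorProduct (k A B : Type*) [Field k] [IsAlgClosed k] [CommRing A] [IsDomain A]
    [Algebra k A] [Algebra.FiniteType k A] [CommRing B] [IsDomain B] [Algebra k B] :
    IsDomain (A ⊗[k] B) := by
  classical
  let b := Module.Basis.ofVectorSpace k B
  let bA := Algebra.TensorProduct.basis A b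
  let Φ : (A →ₐ[k] k) → (A ⊗[k] B →ₐ[k] B) := fun φ =>
    Algebra.TensorProduct.lift ((Algebra.ofId k B).comp φ) (AlgHom.id k B)
      (fun _ _ => Commute.all _ _)
  have hcoord : ∀ (φ : A →ₐ[k] k) (u : A ⊗[k] B) i, b.repr (Φ φ u) i = φ (bA.repr u i) := by
    intro φ u i
    induction u using TensorProduct.induction_on with
    | zero => simp
    | add x y hx hy => simp only [map_add, Finsupp.add_apply, hx, hy]
    | tmul a x =>
      have h1 : Φ φ (a ⊗ₜ x) = φ a • x := by
        simp [Φ, Algebra.smul_def, Algebra.ofId_apply]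
      rw [h1, map_smul, Finsupp.smul_apply, smul_eq_mul, Algebra.TensorProduct.basis_repr_tmul]
      simp
  have hne : ∀ (φ : A →ₐ[k] k) (u : A ⊗[k] B) i, φ (bA.repr u i) ≠ 0 → Φ φ u ≠ 0 := by
    intro φ u i h h0
    apply h
    rw [← hcoord, h0]
    simp
  have hex : ∀ u : A ⊗[k] B, u ≠ 0 → ∃ i, bA.repr u i ≠ 0 := by
    intro u hu
    by_contra hcon
    push Not at hcon
    apply hu
    apply bA.repr.injective
    ext i
    rw [hcon, map_zero, Finsupp.zero_apply]
  obtain ⟨φ0, -⟩ := exists_algHom_ne_zero (k := k) (A := A) one_ne_zero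
  have hnt : Nontrivial (A ⊗[k] B) := RingHom.domain_nontrivial (Φ φ0 : A ⊗[k] B →+* B)
  have hnz : NoZeroDivisors (A ⊗[k] B) := by
    refine ⟨fun {u v} huv => ?_⟩
    by_contra hcon
    push Not at hcon
    obtain ⟨i, hi⟩ := hex u hcon.1
    obtain ⟨j, hj⟩ := hex v hcon.2
    obtain ⟨φ, hφ⟩ := exists_algHom_ne_zero (k := k) (mul_ne_zero hi hj)
    rw [map_mul] at hφ
    have h1 := hne φ u i (left_ne_zero_of_mul hφ)
    have h2 := hne φ v j (right_ne_zero_of_mul hφ)
    apply mul_ne_zero h1 h2
    rw [← map_mul, huv, map_zero]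
  exact NoZeroDivisors.to_isDomain _

/-- A homomorphism from a domain of transcendence degree at most `n` whose image contains `n`
algebraically independent elements is injective. -/
theorem injective_of_algebraicIndependent {k B M : Type*} [Field k] [CommRing B] [IsDomain B]
    [Algebra k B] [CommRing M] [Algebra k M] (f : B →ₐ[k] M) {n : ℕ} (u : Fin n → B)
    (hu : AlgebraicIndependent k (f ∘ u)) (hB : Algebra.trdeg k B ≤ (n : Cardinal)) :
    Function.Injective f := by
  have hu0 : AlgebraicIndependent k u := AlgebraicIndependent.of_comp f hu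
  have hb : IsTranscendenceBasis k u := by
    refine isTranscendenceBasis_of_lift_trdeg_le_of_finite hu0 ?_
    simpa using hB
  have halg := hb.isAlgebraic
  have hker : (RingHom.ker f).comap
      (algebraMap (Algebra.adjoin k (Set.range u)) B) = ⊥ := by
    rw [eq_bot_iff]
    intro x hx
    rw [Ideal.mem_comap, RingHom.mem_ker] at hx
    obtain ⟨p, hp⟩ := hu0.aevalEquiv.surjective x
    have h1 : (x : B) = MvPolynomial.aeval u p := by
      rw [← hp]; simp
    have h2 : MvPolynomial.aeval (f ∘ u) p = 0 := by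
      have h3 : f (algebraMap (Algebra.adjoin k (Set.range u)) B x) = f (MvPolynomial.aeval u p) :=
        congrArg f h1
      rw [hx] at h3
      rw [h3, ← AlgHom.comp_apply, MvPolynomial.comp_aeval]
      rfl
    have h4 : p = 0 := by
      apply hu
      rw [h2, map_zero]
    rw [h4, map_zero] at hp
    rw [← hp]
    exact Submodule.zero_mem _
  rw [injective_iff_map_eq_zero]
  intro x hx
  by_contra hx0
  exact Ideal.comap_ne_bot_of_algebraic_mem hx0 (I := RingHom.ker f) (by rwa [RingHom.mem_ker])
    (halg.isAlgebraic x) hker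

end Pool.Agent.Helper20.DER
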